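import Pool.Agent.H18.KC.Stmts

/-!
# Board `kc`, module VSQ: elementary bounds for the sequence `h_k`
-/

set_option autoImplicit false

open Finset

namespace Pool.Agent.H18.KC

/-- sums over tensors of order `k + 1` -/
theorem VSQ_sum {ι M : Type} [Fintype ι] [AddCommMonoid M] (k : ℕ) (F : (Fin (k + 1) → ι) → M) :
    ∑ I : Fin (k + 1) → ι, F I = ∑ i : ι, ∑ I : Fin k → ι, F (Fin.cons i I) := by
  rw [← Fintype.sum_prod_type' (fun (i : ι) (I : Fin k → ι) => F (Fin.cons i I))]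
  exact (Fintype.sum_equiv (Fin.consEquiv (fun _ => ι)) _ _ fun p => rfl).symm

theorem VSQ_A {ι E : Type} [Fintype ι] [NormedAddCommGroup E] [InnerProductSpace ℝ E]
    {t Q : ℝ} (D : Dat ι E t Q) (i : ι) (h : E) : ‖D.A i h‖ ^ 2 ≤ ‖D.T i h‖ ^ 2 := by
  have h1 : D.T i h = D.A i h + inner ℝ D.e (D.T i h) • D.e := by
    rw [Dat.A_apply, sub_add_cancel]
  have h2 : ‖D.T i h‖ ^ 2 = ‖D.A i h‖ ^ 2 + (inner ℝ D.e (D.T i h)) ^ 2 := by
    conv_lhs => rw [h1]
    rw [norm_add_sq_real, inner_smul_right, real_inner_comm D.e (D.A i h), D.inner_e_A i h,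
      norm_smul, D.he, mul_one, Real.norm_eq_abs, sq_abs]
    ring
  rw [h2]
  have := sq_nonneg (inner ℝ D.e (D.T i h))
  linarith

theorem VSQ_V {ι E : Type} [Fintype ι] [NormedAddCommGroup E] [InnerProductSpace ℝ E]
    {t Q : ℝ} (D : Dat ι E t Q) (h0 : E) (k : ℕ) :
    D.V h0 (k + 1) = ∑ I : Fin k → ι, ∑ i, ‖D.A i (D.hs h0 k I)‖ ^ 2 := by
  unfold Dat.V
  rw [VSQ_sum, Finset.sum_comm]
  rfl

theorem vsq_thm : VSQStmt := by
  intro ι E _ _ _ t Q D L h0 h00 hL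
  have horth : ∀ k I, inner ℝ D.e (D.hs h0 k I) = 0 := by
    intro k
    cases k with
    | zero => exact fun _ => h00
    | succ k => exact fun I => D.inner_e_A _ _
  have hV0 : D.V h0 0 = ‖h0‖ ^ 2 := by
    unfold Dat.V
    rw [Fintype.sum_unique]
    rfl
  refine ⟨horth, hV0, ?_, ?_, ?_, ?_⟩
  · rw [VSQ_V, Fintype.sum_unique]
    rfl
  · intro k
    rw [VSQ_V]
    unfold Dat.V
    rw [Finset.mul_sum]
    exact Finset.sum_le_sum fun I _ => hL _ (horth k I)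
  · intro k
    rw [VSQ_V]
    unfold Dat.V
    rw [Finset.mul_sum]
    refine Finset.sum_le_sum fun I _ => ?_
    have h1 := D.boch _ (horth k I)
    have h2 : ∑ i, ‖D.A i (D.hs h0 k I)‖ ^ 2 ≤ ∑ i, ‖D.T i (D.hs h0 k I)‖ ^ 2 :=
      Finset.sum_le_sum fun i _ => VSQ_A D i _
    have h3 : 0 ≤ ∑ b, ∑ i, ‖D.B b i (D.hs h0 k I)‖ ^ 2 :=
      Finset.sum_nonneg fun _ _ => Finset.sum_nonneg fun _ _ => sq_nonneg _
    have h4 := mul_le_mul_of_nonneg_left h2 D.ht.le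
    linarith
  · intro k
    unfold Dat.X Dat.V
    rw [Finset.sum_comm]
    refine Finset.sum_le_sum fun I _ => ?_
    have h1 := D.Pbd 0 _ (horth k I)
    rw [VSQ_sum] at h1
    have h2 : ∀ i : ι, ∑ J : Fin 0 → ι, (D.P (0 + 1) (Fin.cons i J) (D.hs h0 k I)) ^ 2 =
        (D.P 1 (fun _ => i) (D.hs h0 k I)) ^ 2 := by
      intro i
      rw [Fintype.sum_unique]
      congr 3
      funext j
      have : j = 0 := Fin.ext (by have := j.2; omega)
      subst this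
      rfl
    rw [Finset.sum_congr rfl fun i _ => h2 i] at h1
    simpa using h1

end Pool.Agent.H18.KC
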