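import Mathlib

/-!
# Full KLS, Part C: Lemma E (polarisation by inclusion-exclusion), representation form
-/

set_option autoImplicit false

namespace Pool.Agent.H49.KC

open Finset

/-- inclusion-exclusion over the subsets of `P` -/
theorem SymE_incl {X : Type*} [AddCommGroup X] [Module ℝ X] {J : Type*} [DecidableEq J] (m : ℕ)
    (O P : Finset J) (hPO : P ⊆ O) (hP : P.card = m) (v : Finset J → X) :
    v P = ∑ Y ∈ P.powerset, ((-1 : ℝ) ^ Y.card) • ∑ Z ∈ (O \ Y).powersetCard m, v Z := by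
  have h1 : ∀ Y ∈ P.powerset, ((-1 : ℝ) ^ Y.card) • ∑ Z ∈ (O \ Y).powersetCard m, v Z =
      ∑ Z ∈ O.powersetCard m, if Y ⊆ P \ Z then ((-1 : ℝ) ^ Y.card) • v Z else 0 := by
    intro Y hY
    rw [mem_powerset] at hY
    rw [smul_sum, ← sum_filter]
    refine sum_congr ?_ fun _ _ => rfl
    ext Z
    simp only [mem_powersetCard, mem_filter, subset_sdiff]
    constructor
    · rintro ⟨⟨a, b⟩, c⟩
      exact ⟨⟨a, c⟩, hY, b.symm⟩
    · rintro ⟨⟨a, c⟩, _, b⟩
      exact ⟨⟨a, b.symm⟩, c⟩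
  rw [sum_congr rfl h1, sum_comm]
  have h2 : ∀ Z ∈ O.powersetCard m, (∑ Y ∈ P.powerset, if Y ⊆ P \ Z then
      ((-1 : ℝ) ^ Y.card) • v Z else 0) = if Z = P then v P else 0 := by
    intro Z hZ
    rw [mem_powersetCard] at hZ
    have h3 : (∑ Y ∈ P.powerset, if Y ⊆ P \ Z then ((-1 : ℝ) ^ Y.card) • v Z else 0) =
        (∑ Y ∈ (P \ Z).powerset, ((-1 : ℝ) ^ Y.card)) • v Z := by
      rw [sum_smul, ← sum_filter]
      refine sum_congr ?_ fun _ _ => rfl
      ext Y
      simp only [mem_powerset, mem_filter, and_iff_right_iff_imp]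
      exact fun h => h.trans sdiff_subset
    rw [h3]
    have h4 : (∑ Y ∈ (P \ Z).powerset, ((-1 : ℝ) ^ Y.card)) =
        if P \ Z = ∅ then 1 else 0 := by
      have := sum_powerset_neg_one_pow_card (x := P \ Z)
      have h5 := congrArg (fun z : ℤ => (z : ℝ)) this
      push_cast at h5
      rw [h5]
    rw [h4]
    by_cases hZP : Z = P
    · subst hZP
      simp
    · rw [if_neg hZP, if_neg, zero_smul]
      intro h
      apply hZP
      rw [sdiff_eq_empty_iff_subset] at h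
      exact (eq_of_subset_of_card_le h (by rw [hZ.2, hP])).symm
  rw [sum_congr rfl h2, sum_ite_eq' (O.powersetCard m) P, if_pos]
  exact mem_powersetCard.2 ⟨hPO, hP⟩

/-- double counting -/
theorem SymE_double {X : Type*} [AddCommGroup X] [Module ℝ X] {J : Type*} [DecidableEq J] (m : ℕ)
    (Q : Finset J) (v : Finset J → X) :
    ∑ W ∈ Q.powersetCard (2 * m), ∑ Z ∈ W.powersetCard m, v Z =
      (((Q.card - m).choose m : ℕ) : ℝ) • ∑ Z ∈ Q.powersetCard m, v Z := by
  have h1 : ∀ W ∈ Q.powersetCard (2 * m), ∑ Z ∈ W.powersetCard m, v Z =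
      ∑ Z ∈ Q.powersetCard m, if Z ⊆ W then v Z else 0 := by
    intro W hW
    rw [mem_powersetCard] at hW
    rw [← sum_filter]
    refine sum_congr ?_ fun _ _ => rfl
    ext Z
    simp only [mem_powersetCard, mem_filter]
    constructor
    · rintro ⟨a, b⟩
      exact ⟨⟨a.trans hW.1, b⟩, a⟩
    · rintro ⟨⟨_, b⟩, a⟩
      exact ⟨a, b⟩
  rw [sum_congr rfl h1, sum_comm, smul_sum]
  refine sum_congr rfl fun Z hZ => ?_
  rw [mem_powersetCard] at hZ
  rw [← sum_filter, sum_const, card_filter_powersetCard_subset Z Q (2 * m) hZ.1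
    (by rw [hZ.2]; omega), hZ.2]
  rw [show 2 * m - m = m by omega, Nat.cast_smul_eq_nsmul]

theorem SymE_SX {X : Type*} [AddCommGroup X] [Module ℝ X] (p : Seminorm ℝ X) {J : Type*}
    [DecidableEq J] (m : ℕ) (Q : Finset J) (hQ : 2 * m ≤ Q.card) (v : Finset J → X) (f : ℝ)
    (hW : ∀ W ⊆ Q, W.card = 2 * m → p (∑ Z ∈ W.powersetCard m, v Z) ≤ (2 * m).choose m * f) :
    p (∑ Z ∈ Q.powersetCard m, v Z) ≤ (Q.card.choose m : ℕ) * f := by
  have h1 := congrArg p (SymE_double m Q v)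
  rw [map_smul_eq_mul, Real.norm_of_nonneg (Nat.cast_nonneg _)] at h1
  have h2 : p (∑ W ∈ Q.powersetCard (2 * m), ∑ Z ∈ W.powersetCard m, v Z) ≤
      ∑ W ∈ Q.powersetCard (2 * m), ((2 * m).choose m * f) := by
    refine (Finset.le_sum_of_subadditive p (map_zero p).le (map_add_le_add p) _ _).trans (sum_le_sum fun W hWm => ?_)
    rw [mem_powersetCard] at hWm
    exact hW W hWm.1 hWm.2
  rw [sum_const, card_powersetCard, nsmul_eq_mul, ← mul_assoc] at h2
  have h3 : Q.card.choose (2 * m) * (2 * m).choose m =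
      Q.card.choose m * (Q.card - m).choose m := by
    have := Nat.choose_mul (n := Q.card) (show m ≤ 2 * m by omega)
    rwa [show 2 * m - m = m by omega] at this
  have h4 : ((Q.card.choose (2 * m) : ℕ) : ℝ) * ((2 * m).choose m : ℕ) =
      (Q.card.choose m : ℕ) * ((Q.card - m).choose m : ℕ) := by
    exact_mod_cast h3
  rw [h4] at h2
  rw [h1] at h2
  have h5 : 0 < (((Q.card - m).choose m : ℕ) : ℝ) := by
    exact_mod_cast Nat.choose_pos (by omega)
  have h6 : (((Q.card - m).choose m : ℕ) : ℝ) * p (∑ Z ∈ Q.powersetCard m, v Z) ≤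
      (((Q.card - m).choose m : ℕ) : ℝ) * ((Q.card.choose m : ℕ) * f) := by
    linarith
  exact le_of_mul_le_mul_left h6 h5

/-- the combinatorial part of Lemma E -/
theorem SymE_comb {X : Type*} [AddCommGroup X] [Module ℝ X] (p : Seminorm ℝ X) {J : Type*}
    [DecidableEq J] (m : ℕ) (O P : Finset J) (hO : O.card = 3 * m) (hPO : P ⊆ O)
    (hP : P.card = m) (v : Finset J → X) (f : ℝ) (hf : 0 ≤ f)
    (hW : ∀ W ⊆ O, W.card = 2 * m → p (∑ Z ∈ W.powersetCard m, v Z) ≤ (2 * m).choose m * f) :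
    p (v P) ≤ 16 ^ m * f := by
  rw [SymE_incl m O P hPO hP v]
  have h1 : ∀ Y ∈ P.powerset, p (((-1 : ℝ) ^ Y.card) • ∑ Z ∈ (O \ Y).powersetCard m, v Z) ≤
      8 ^ m * f := by
    intro Y hY
    rw [mem_powerset] at hY
    rw [map_smul_eq_mul, norm_pow, norm_neg, norm_one, one_pow, one_mul]
    have hc : (O \ Y).card = O.card - Y.card := card_sdiff_of_subset (hY.trans hPO)
    have hY' := card_le_card hY
    refine (SymE_SX p m (O \ Y) (by omega) v f fun W hWs hWc => hW W
      (hWs.trans sdiff_subset) hWc).trans ?_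
    have h2 : ((O \ Y).card.choose m : ℝ) ≤ 8 ^ m := by
      have h3 : (O \ Y).card.choose m ≤ 8 ^ m := by
        calc (O \ Y).card.choose m ≤ 2 ^ (O \ Y).card := Nat.choose_le_two_pow _ _
          _ ≤ 2 ^ (3 * m) := Nat.pow_le_pow_right (by norm_num) (by omega)
          _ = 8 ^ m := by rw [pow_mul]; norm_num
      exact_mod_cast h3
    exact mul_le_mul_of_nonneg_right h2 hf
  refine (Finset.le_sum_of_subadditive p (map_zero p).le (map_add_le_add p) _ _).trans ((sum_le_sum h1).trans ?_)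
  rw [sum_const, card_powerset, hP, nsmul_eq_mul]
  push_cast
  rw [← mul_assoc, ← mul_pow]
  norm_num

section rep

variable {J : Type*} [Finite J] [DecidableEq J] {X : Type*} [AddCommGroup X] [Module ℝ X]

omit [DecidableEq J] in
theorem SymE_perm {O P Z : Finset J} (hP : P ⊆ O) (hZ : Z ⊆ O) (h : P.card = Z.card) :
    ∃ σ : Equiv.Perm J, (∀ x, x ∉ O → σ x = x) ∧ P.map σ.toEmbedding = Z := by
  let f : P ⊕ {x // x ∉ O} → J := Sum.elim (fun x => x.1) (fun x => x.1)
  let g : P ⊕ {x // x ∉ O} → J := Sum.elim (fun x => ((P.equivOfCardEq h) x : J)) (fun x => x.1)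
  have hf : Function.Injective f := by
    refine Function.Injective.sumElim Subtype.val_injective Subtype.val_injective ?_
    intro a b hab
    exact b.2 (hab ▸ hP a.2)
  have hg : Function.Injective g := by
    refine Function.Injective.sumElim
      (Subtype.val_injective.comp (P.equivOfCardEq h).injective) Subtype.val_injective ?_
    intro a b hab
    exact b.2 (hab ▸ hZ ((P.equivOfCardEq h) a).2)
  obtain ⟨σ, hσ⟩ := Equiv.Perm.exists_extending_pair f g hf hg
  refine ⟨σ, fun x hx => hσ (Sum.inr ⟨x, hx⟩), ?_⟩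
  refine eq_of_subset_of_card_le (fun b hb => ?_) (by rw [card_map, h])
  obtain ⟨a, ha, rfl⟩ := mem_map.mp hb
  have := hσ (Sum.inl ⟨a, ha⟩)
  change σ a = _ at this
  change σ a ∈ Z
  rw [this]
  exact ((P.equivOfCardEq h) ⟨a, ha⟩).2

omit [Finite J] in
theorem SymE_supp_map {O : Finset J} {σ : Equiv.Perm J} (h : ∀ x, x ∉ O → σ x = x) :
    O.map σ.toEmbedding = O := by
  refine eq_of_subset_of_card_le (fun b hb => ?_) (by rw [card_map])
  obtain ⟨a, ha, rfl⟩ := mem_map.mp hb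
  change σ a ∈ O
  by_contra hc
  have h1 := h _ hc
  have h2 : σ a = a := σ.injective h1
  rw [h2] at hc
  exact hc ha

/-- **Lemma E.** `ρ` is an isometric action of the permutations of the positions, `v` is invariant
under the permutations of `O` which preserve `P`, `S` is the symmetrisation over `W`. -/
theorem SymE (p : Seminorm ℝ X) (ρ : Equiv.Perm J →* Module.End ℝ X)
    (hρ : ∀ σ x, p (ρ σ x) = p x) (m : ℕ) (O W P : Finset J) (hO : O.card = 3 * m)
    (hW : W.card = 2 * m) (hP : P.card = m) (hPW : P ⊆ W) (hWO : W ⊆ O) (v : X)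
    (hv : ∀ σ : Equiv.Perm J, (∀ x, x ∉ O → σ x = x) → P.map σ.toEmbedding = P → ρ σ v = v)
    (S : X →ₗ[ℝ] X)
    (hS1 : ∀ σ : Equiv.Perm J, (∀ x, x ∉ W → σ x = x) → ∀ x, S (ρ σ x) = S x)
    (hS2 : ∀ x, (∀ σ : Equiv.Perm J, (∀ y, y ∉ W → σ y = y) → ρ σ x = x) → S x = x) :
    p v ≤ 16 ^ m * p (S v) := by
  classical
  set Pr : Finset J → Prop := fun Z => ∃ σ : Equiv.Perm J, (∀ x, x ∉ O → σ x = x) ∧
    P.map σ.toEmbedding = Z with hPr
  let vZ : Finset J → X := fun Z => if h : Pr Z then ρ h.choose v else 0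
  have key : ∀ σ : Equiv.Perm J, (∀ x, x ∉ O → σ x = x) → ρ σ v = vZ (P.map σ.toEmbedding) := by
    intro σ hσ
    have h : Pr (P.map σ.toEmbedding) := ⟨σ, hσ, rfl⟩
    have e1 : vZ (P.map σ.toEmbedding) = ρ h.choose v := dif_pos h
    obtain ⟨h1, h2⟩ := h.choose_spec
    rw [e1]
    set τ := h.choose with hτ
    have h3 : ρ (τ⁻¹ * σ) v = v := by
      refine hv _ (fun x hx => ?_) ?_
      · rw [Equiv.Perm.mul_apply, hσ x hx, Equiv.Perm.inv_eq_iff_eq]
        exact (h1 x hx).symm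
      · ext y
        simp only [mem_map_equiv]
        constructor
        · intro hy
          have h4 : σ ((τ⁻¹ * σ).symm y) ∈ P.map σ.toEmbedding := mem_map_of_mem _ hy
          rw [← h2] at h4
          obtain ⟨z, hz, hz2⟩ := mem_map.mp h4
          have h5 : (τ⁻¹ * σ) ((τ⁻¹ * σ).symm y) = z := by
            rw [Equiv.Perm.mul_apply, Equiv.Perm.inv_eq_iff_eq]
            exact hz2.symm
          rw [Equiv.apply_symm_apply] at h5
          rw [h5]
          exact hz
        · intro hy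
          have h4 : τ y ∈ P.map τ.toEmbedding := mem_map_of_mem _ hy
          rw [h2] at h4
          obtain ⟨z, hz, hz2⟩ := mem_map.mp h4
          have h5 : (τ⁻¹ * σ) z = y := by
            rw [Equiv.Perm.mul_apply, Equiv.Perm.inv_eq_iff_eq]
            exact hz2
          rw [← h5, Equiv.symm_apply_apply]
          exact hz
    calc ρ σ v = ρ (τ * (τ⁻¹ * σ)) v := by rw [mul_inv_cancel_left]
      _ = ρ τ (ρ (τ⁻¹ * σ) v) := by rw [map_mul]; rfl
      _ = ρ τ v := by rw [h3]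
  have key2 : ∀ π : Equiv.Perm J, (∀ x, x ∉ O → π x = x) → ∀ Z ⊆ O, Z.card = m →
      ρ π (vZ Z) = vZ (Z.map π.toEmbedding) := by
    intro π hπ Z hZ hZc
    obtain ⟨σ, h1, h2⟩ := SymE_perm (hPW.trans hWO) hZ (by rw [hP, hZc])
    rw [← h2, ← key σ h1]
    have h3 : ρ π (ρ σ v) = ρ (π * σ) v := by rw [map_mul]; rfl
    rw [h3, key (π * σ) (fun x hx => by rw [Equiv.Perm.mul_apply, h1 x hx, hπ x hx])]
    congr 1
    rw [map_map]
    rfl
  have key3 : ∀ π : Equiv.Perm J, (∀ x, x ∉ O → π x = x) → ∀ V ⊆ O,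
      ∑ Z ∈ (V.map π.toEmbedding).powersetCard m, vZ Z =
      ρ π (∑ Z ∈ V.powersetCard m, vZ Z) := by
    intro π hπ V hV
    rw [powersetCard_map, sum_map, map_sum]
    refine sum_congr rfl fun Z hZ => ?_
    rw [mem_powersetCard] at hZ
    rw [key2 π hπ Z (hZ.1.trans hV) hZ.2]
    rfl
  have hY : ∑ Z ∈ W.powersetCard m, vZ Z = ((2 * m).choose m : ℝ) • S v := by
    have h1 : S (∑ Z ∈ W.powersetCard m, vZ Z) = ∑ Z ∈ W.powersetCard m, vZ Z := by
      refine hS2 _ fun σ hσ => ?_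
      rw [← key3 σ (fun x hx => hσ x fun h => hx (hWO h)) W hWO, SymE_supp_map hσ]
    rw [← h1, map_sum]
    have h2 : ∀ Z ∈ W.powersetCard m, S (vZ Z) = S v := by
      intro Z hZ
      rw [mem_powersetCard] at hZ
      obtain ⟨σ, h3, h4⟩ := SymE_perm hPW hZ.1 (by rw [hP, hZ.2])
      rw [← h4, ← key σ fun x hx => h3 x fun h => hx (hWO h)]
      exact hS1 σ h3 v
    rw [sum_congr rfl h2, sum_const, card_powersetCard, hW, Nat.cast_smul_eq_nsmul]
  have hfin := SymE_comb p m O P hO (hPW.trans hWO) hP vZ (p (S v)) (apply_nonneg p _) ?_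
  · have h1 := key 1 (fun x _ => rfl)
    have h2 : P.map (1 : Equiv.Perm J).toEmbedding = P := by
      ext x
      simp only [mem_map_equiv]
      exact Iff.rfl
    rw [h2, map_one] at h1
    rw [← h1] at hfin
    exact hfin
  · intro W' hW' hWc
    obtain ⟨π, h1, h2⟩ := SymE_perm hWO hW' (by rw [hW, hWc])
    rw [← h2, key3 π h1 W hWO, hρ, hY, map_smul_eq_mul, Real.norm_of_nonneg (Nat.cast_nonneg _)]

end rep

end Pool.Agent.H49.KC
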