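import Pool.Agent.H49.KC.SymE

/-!
# Full KLS, Part C: Lemma F (adjacent transpositions), symmetrisation operators, inequality (3.1)
-/

set_option autoImplicit false

namespace Pool.Agent.H49.KC

open Finset

section rep

variable {J : Type*} [DecidableEq J] {X : Type*} [AddCommGroup X] [Module ℝ X]

/-- one transposition through adjacent ones -/
theorem SymF_swap (p : Seminorm ℝ X) (ρ : Equiv.Perm J →* Module.End ℝ X)
    (hρ : ∀ σ x, p (ρ σ x) = p x) (v : X) (e : ℕ → J) (a r : ℕ)
    (he : ∀ i j, a ≤ i → i < a + r → a ≤ j → j < a + r → e i = e j → i = j) (i : ℕ) (hai : a ≤ i) :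
    ∀ k, i < k → k < a + r → p (ρ (Equiv.swap (e i) (e k)) v - v) ≤
      2 * ∑ j ∈ Ico i k, p (ρ (Equiv.swap (e j) (e (j + 1))) v - v) := by
  intro k hik
  induction k, hik using Nat.le_induction with
  | base =>
    intro _
    have h0 : Ico i (i + 1) = {i} := by
      ext j
      simp only [mem_Ico, mem_singleton]
      omega
    rw [Nat.succ_eq_add_one, h0, sum_singleton]
    have := apply_nonneg p (ρ (Equiv.swap (e i) (e (i + 1))) v - v)
    linarith
  | succ k hk ih =>
    intro hkr
    have hk' : i < k := hk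
    have ih' := ih (by omega)
    have h1 : Equiv.swap (e i) (e (k + 1)) =
        Equiv.swap (e k) (e (k + 1)) * Equiv.swap (e i) (e k) * Equiv.swap (e k) (e (k + 1)) := by
      have h2 : e i ≠ e k := fun h => by
        have := he i k hai (by omega) (by omega) (by omega) h
        omega
      have h3 : e i ≠ e (k + 1) := fun h => by
        have := he i (k + 1) hai (by omega) (by omega) (by omega) h
        omega
      rw [Equiv.swap_mul_swap_mul_swap h2 h3, Equiv.swap_comm]
    rw [h1]
    set T := Equiv.swap (e k) (e (k + 1)) with hT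
    set s := Equiv.swap (e i) (e k) with hs
    have h5 : ρ (T * s * T) v - v = ρ (T * s) (ρ T v - v) + (ρ T (ρ s v - v)) + (ρ T v - v) := by
      rw [map_sub, map_sub, map_mul, map_mul]
      simp only [Module.End.mul_apply]
      abel
    have h6 : p (ρ (T * s * T) v - v) ≤ p (ρ T v - v) + p (ρ s v - v) + p (ρ T v - v) := by
      rw [h5]
      refine (map_add_le_add p _ _).trans (add_le_add_left ((map_add_le_add p _ _).trans ?_) _)
      rw [hρ, hρ]
    have h7 : ∑ j ∈ Ico i (k + 1), p (ρ (Equiv.swap (e j) (e (j + 1))) v - v) =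
        ∑ j ∈ Ico i k, p (ρ (Equiv.swap (e j) (e (j + 1))) v - v) + p (ρ T v - v) :=
      sum_Ico_succ_top hk'.le _
    rw [h7]
    linarith

/-- **Lemma F** for one permutation -/
theorem SymF_perm (p : Seminorm ℝ X) (ρ : Equiv.Perm J →* Module.End ℝ X)
    (hρ : ∀ σ x, p (ρ σ x) = p x) (v : X) (e : ℕ → J) (a : ℕ) :
    ∀ r : ℕ, (∀ i j, a ≤ i → i < a + r → a ≤ j → j < a + r → e i = e j → i = j) →
    ∀ σ : Equiv.Perm J, (∀ x, x ∉ (Ico a (a + r)).image e → σ x = x) →
    p (ρ σ v - v) ≤
      2 * r * ∑ j ∈ Ico a (a + r - 1), p (ρ (Equiv.swap (e j) (e (j + 1))) v - v) := by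
  intro r
  induction r with
  | zero =>
    intro _ σ hσ
    have h1 : σ = 1 := by
      ext x
      exact hσ x (by simp)
    rw [h1]
    simp
  | succ r ih =>
    intro he σ hσ
    have ih' := ih fun i j h1 h2 h3 h4 => he i j h1 (by omega) h3 (by omega)
    set D : ℕ → ℝ := fun n => ∑ j ∈ Ico a n, p (ρ (Equiv.swap (e j) (e (j + 1))) v - v) with hD
    have hDm : ∀ n n', n ≤ n' → D n ≤ D n' := fun n n' h =>
      sum_le_sum_of_subset_of_nonneg (Ico_subset_Ico le_rfl h) fun _ _ _ => apply_nonneg p _
    have hD0 : ∀ n, 0 ≤ D n := fun n => sum_nonneg fun _ _ => apply_nonneg p _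
    have hmem : σ (e (a + r)) ∈ (Ico a (a + (r + 1))).image e := by
      by_contra hc
      have h1 := hσ _ hc
      have h2 : σ (e (a + r)) = e (a + r) := σ.injective h1
      rw [h2] at hc
      exact hc (mem_image_of_mem _ (mem_Ico.2 ⟨by omega, by omega⟩))
    obtain ⟨i, hi, hie⟩ := mem_image.1 hmem
    rw [mem_Ico] at hi
    -- the case `i = a + r`
    rcases eq_or_lt_of_le (show i ≤ a + r by omega) with h | h
    · have h2 : ∀ x, x ∉ (Ico a (a + r)).image e → σ x = x := by
        intro x hx
        by_cases hx' : x = e (a + r)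
        · rw [hx', ← hie, h]
        · refine hσ x fun hc => ?_
          obtain ⟨j, hj, rfl⟩ := mem_image.1 hc
          rw [mem_Ico] at hj
          rcases eq_or_lt_of_le (show j ≤ a + r by omega) with h3 | h3
          · exact hx' (by rw [h3])
          · exact hx (mem_image_of_mem _ (mem_Ico.2 ⟨hj.1, h3⟩))
      refine (ih' σ h2).trans ?_
      have h3 := hDm (a + r - 1) (a + (r + 1) - 1) (by omega)
      have h4 := hD0 (a + (r + 1) - 1)
      have h5 : (0:ℝ) ≤ r := Nat.cast_nonneg _
      push_cast
      calc 2 * (r:ℝ) * D (a + r - 1) ≤ 2 * r * D (a + (r + 1) - 1) := by gcongr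
        _ ≤ 2 * (r + 1) * D (a + (r + 1) - 1) := by nlinarith
    · set c := Equiv.swap (e i) (e (a + r)) with hc
      have hne : e i ≠ e (a + r) := fun h3 => by
        have := he i (a + r) hi.1 (by omega) (by omega) (by omega) h3
        omega
      have h2 : ∀ x, x ∉ (Ico a (a + r)).image e → (c * σ) x = x := by
        intro x hx
        rw [Equiv.Perm.mul_apply]
        by_cases hx' : x = e (a + r)
        · rw [hx', ← hie, hc, Equiv.swap_apply_left]
        · have hxi : x ≠ e i := fun h3 => hx (h3 ▸ mem_image_of_mem _ (mem_Ico.2 ⟨hi.1, h⟩))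
          have h3 : σ x = x := by
            refine hσ x fun hc => ?_
            obtain ⟨j, hj, rfl⟩ := mem_image.1 hc
            rw [mem_Ico] at hj
            rcases eq_or_lt_of_le (show j ≤ a + r by omega) with h3 | h3
            · exact hx' (by rw [h3])
            · exact hx (mem_image_of_mem _ (mem_Ico.2 ⟨hj.1, h3⟩))
          rw [h3, hc, Equiv.swap_apply_of_ne_of_ne hxi hx']
      have h3 := ih' (c * σ) h2
      have h4 : σ = c * (c * σ) := by rw [← mul_assoc, hc, Equiv.swap_mul_self, one_mul]
      have h5 : ρ σ v - v = ρ c (ρ (c * σ) v - v) + (ρ c v - v) := by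
        rw [map_sub]
        have h6 : ρ c (ρ (c * σ) v) = ρ σ v := by
          conv_rhs => rw [h4]
          rw [map_mul ρ c (c * σ)]
          rfl
        rw [h6]
        abel
      have h6 : p (ρ σ v - v) ≤ p (ρ (c * σ) v - v) + p (ρ c v - v) := by
        rw [h5]
        refine (map_add_le_add p _ _).trans ?_
        rw [hρ]
      have h7 := SymF_swap p ρ hρ v e a (r + 1) he i hi.1 (a + r) h (by omega)
      have h8 : ∑ j ∈ Ico i (a + r), p (ρ (Equiv.swap (e j) (e (j + 1))) v - v) ≤
          D (a + (r + 1) - 1) := by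
        have : a + (r + 1) - 1 = a + r := by omega
        rw [this]
        exact sum_le_sum_of_subset_of_nonneg (Ico_subset_Ico hi.1 le_rfl)
          fun _ _ _ => apply_nonneg p _
      have h9 := hDm (a + r - 1) (a + (r + 1) - 1) (by omega)
      have h10 : (0:ℝ) ≤ r := Nat.cast_nonneg _
      have h11 : 2 * (r:ℝ) * D (a + r - 1) ≤ 2 * r * D (a + (r + 1) - 1) := by gcongr
      push_cast
      calc p (ρ σ v - v) ≤ p (ρ (c * σ) v - v) + p (ρ c v - v) := h6
        _ ≤ 2 * (r:ℝ) * D (a + r - 1) + 2 * D (a + (r + 1) - 1) := by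
            refine add_le_add h3 (h7.trans ?_)
            linarith
        _ ≤ 2 * (r + 1) * D (a + (r + 1) - 1) := by linarith

end rep

end Pool.Agent.H49.KC
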