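import Pool.Agent.H49.KC.SymF

/-!
# Full KLS, Part C: symmetrisation operators and the doubling inequality (3.1)
-/

set_option autoImplicit false

namespace Pool.Agent.H49.KC

open Finset

section rep

variable {J : Type*} [Fintype J] [DecidableEq J] {X : Type*} [AddCommGroup X] [Module ℝ X]

/-- permutations supported in `W` -/
def GW (W : Finset J) : Finset (Equiv.Perm J) := univ.filter (fun σ => ∀ x, x ∉ W → σ x = x)

theorem mem_GW {W : Finset J} {σ : Equiv.Perm J} : σ ∈ GW W ↔ ∀ x, x ∉ W → σ x = x := by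
  simp [GW]

theorem one_mem_GW (W : Finset J) : (1 : Equiv.Perm J) ∈ GW W := mem_GW.2 fun _ _ => rfl

theorem mul_mem_GW {W : Finset J} {σ τ : Equiv.Perm J} (hσ : σ ∈ GW W) (hτ : τ ∈ GW W) :
    σ * τ ∈ GW W := by
  rw [mem_GW] at *
  intro x hx
  rw [Equiv.Perm.mul_apply, hτ x hx, hσ x hx]

theorem inv_mem_GW {W : Finset J} {σ : Equiv.Perm J} (hσ : σ ∈ GW W) : σ⁻¹ ∈ GW W := by
  rw [mem_GW] at *
  intro x hx
  rw [Equiv.Perm.inv_eq_iff_eq, hσ x hx]

theorem GW_mono {W W' : Finset J} (h : W ⊆ W') : GW W ⊆ GW W' := by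
  intro σ hσ
  rw [mem_GW] at *
  exact fun x hx => hσ x fun h' => hx (h h')

theorem card_GW_pos (W : Finset J) : 0 < (GW W).card := card_pos.2 ⟨1, one_mem_GW W⟩

/-- symmetrisation over `W` -/
noncomputable def AV (ρ : Equiv.Perm J →* Module.End ℝ X) (W : Finset J) : X →ₗ[ℝ] X :=
  ((GW W).card : ℝ)⁻¹ • ∑ σ ∈ GW W, ρ σ

theorem AV_apply (ρ : Equiv.Perm J →* Module.End ℝ X) (W : Finset J) (x : X) :
    AV ρ W x = ((GW W).card : ℝ)⁻¹ • ∑ σ ∈ GW W, ρ σ x := by
  unfold AV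
  rw [LinearMap.smul_apply, LinearMap.sum_apply]

theorem AV_const (W : Finset J) (x : X) :
    ((GW W).card : ℝ)⁻¹ • ∑ _σ ∈ GW W, x = x := by
  rw [sum_const, ← Nat.cast_smul_eq_nsmul ℝ, smul_smul, inv_mul_cancel₀, one_smul]
  exact_mod_cast (card_GW_pos W).ne'

theorem AV_right (ρ : Equiv.Perm J →* Module.End ℝ X) {W : Finset J} {σ : Equiv.Perm J}
    (hσ : σ ∈ GW W) (x : X) : AV ρ W (ρ σ x) = AV ρ W x := by
  rw [AV_apply, AV_apply]
  congr 1
  refine sum_bij' (fun τ _ => τ * σ) (fun τ _ => τ * σ⁻¹) (fun τ hτ => mul_mem_GW hτ hσ)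
    (fun τ hτ => mul_mem_GW hτ (inv_mem_GW hσ)) (fun τ _ => mul_inv_cancel_right τ σ)
    (fun τ _ => inv_mul_cancel_right τ σ) fun τ _ => ?_
  rw [map_mul]
  rfl

theorem AV_left (ρ : Equiv.Perm J →* Module.End ℝ X) {W : Finset J} {σ : Equiv.Perm J}
    (hσ : σ ∈ GW W) (x : X) : ρ σ (AV ρ W x) = AV ρ W x := by
  rw [AV_apply, map_smul, map_sum]
  congr 1
  refine sum_bij' (fun τ _ => σ * τ) (fun τ _ => σ⁻¹ * τ) (fun τ hτ => mul_mem_GW hσ hτ)
    (fun τ hτ => mul_mem_GW (inv_mem_GW hσ) hτ) (fun τ _ => inv_mul_cancel_left σ τ)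
    (fun τ _ => mul_inv_cancel_left σ τ) fun τ _ => ?_
  rw [map_mul]
  rfl

theorem AV_fix (ρ : Equiv.Perm J →* Module.End ℝ X) {W : Finset J} {x : X}
    (h : ∀ σ ∈ GW W, ρ σ x = x) : AV ρ W x = x := by
  rw [AV_apply, sum_congr rfl h, AV_const]

theorem AV_le (p : Seminorm ℝ X) (ρ : Equiv.Perm J →* Module.End ℝ X) {W : Finset J} {x : X}
    {c : ℝ} (h : ∀ σ ∈ GW W, p (ρ σ x) ≤ c) : p (AV ρ W x) ≤ c := by
  have hc : (0:ℝ) < (GW W).card := by exact_mod_cast card_GW_pos W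
  rw [AV_apply, map_smul_eq_mul, norm_inv, Real.norm_of_nonneg hc.le, inv_mul_le_iff₀ hc]
  refine (le_sum_of_subadditive p (map_zero p).le (map_add_le_add p) _ _).trans
    ((sum_le_sum h).trans ?_)
  rw [sum_const, nsmul_eq_mul]

theorem AV_contr (p : Seminorm ℝ X) (ρ : Equiv.Perm J →* Module.End ℝ X)
    (hρ : ∀ σ x, p (ρ σ x) = p x) (W : Finset J) (x : X) : p (AV ρ W x) ≤ p x :=
  AV_le p ρ fun σ _ => (hρ σ x).le

theorem AV_sub (p : Seminorm ℝ X) (ρ : Equiv.Perm J →* Module.End ℝ X) {W : Finset J} {x : X}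
    {c : ℝ} (h : ∀ σ ∈ GW W, p (ρ σ x - x) ≤ c) : p (AV ρ W x - x) ≤ c := by
  have hc : (0:ℝ) < (GW W).card := by exact_mod_cast card_GW_pos W
  have e : AV ρ W x - x = ((GW W).card : ℝ)⁻¹ • ∑ σ ∈ GW W, (ρ σ x - x) := by
    rw [sum_sub_distrib, smul_sub, AV_const, AV_apply]
  rw [e, map_smul_eq_mul, norm_inv, Real.norm_of_nonneg hc.le, inv_mul_le_iff₀ hc]
  refine (le_sum_of_subadditive p (map_zero p).le (map_add_le_add p) _ _).trans
    ((sum_le_sum h).trans ?_)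
  rw [sum_const, nsmul_eq_mul]

theorem AV_nest (ρ : Equiv.Perm J →* Module.End ℝ X) {W W' : Finset J} (h : W ⊆ W') (x : X) :
    AV ρ W' (AV ρ W x) = AV ρ W' x := by
  rw [AV_apply ρ W, map_smul, map_sum, sum_congr rfl fun σ hσ => AV_right ρ (GW_mono h hσ) x,
    AV_const]

theorem AV_comm (ρ : Equiv.Perm J →* Module.End ℝ X) {W : Finset J} {τ : Equiv.Perm J}
    (h : ∀ x ∈ W, τ x = x) (x : X) : ρ τ (AV ρ W x) = AV ρ W (ρ τ x) := by
  rw [AV_apply, AV_apply, map_smul, map_sum]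
  congr 1
  refine sum_congr rfl fun σ hσ => ?_
  rw [mem_GW] at hσ
  have h1 : τ * σ = σ * τ := by
    ext y
    rw [Equiv.Perm.mul_apply, Equiv.Perm.mul_apply]
    by_cases hy : y ∈ W
    · rw [h y hy]
      by_cases hs : σ y ∈ W
      · exact h _ hs
      · have h2 := hσ _ hs
        have h3 : σ y = y := σ.injective h2
        rw [h3, h y hy]
    · rw [hσ y hy]
      by_cases hs : τ y ∈ W
      · have h2 := h _ hs
        have h3 : τ y = y := τ.injective h2
        rw [h3] at hs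
        exact absurd hs hy
      · rw [hσ _ hs]
  have h2 : ρ τ (ρ σ x) = ρ (τ * σ) x := by rw [map_mul]; rfl
  have h3 : ρ σ (ρ τ x) = ρ (σ * τ) x := by rw [map_mul]; rfl
  rw [h2, h3, h1]

/-- a permutation of `O` which preserves `P` is the product of a permutation of `P` and one
of `O \ P` -/
theorem GW_split {O P : Finset J} (_hPO : P ⊆ O) {σ : Equiv.Perm J} (hσ : σ ∈ GW O)
    (hP : P.map σ.toEmbedding = P) : ∃ α ∈ GW P, ∃ β ∈ GW (O \ P), σ = α * β := by
  have h1 : ∀ x, x ∈ P ↔ σ x ∈ P := by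
    intro x
    constructor
    · intro hx
      rw [← hP]
      exact mem_map_of_mem _ hx
    · intro hx
      rw [← hP] at hx
      obtain ⟨y, hy, hy2⟩ := mem_map.1 hx
      have h2 : y = x := σ.injective hy2
      rwa [h2] at hy
  rw [mem_GW] at hσ
  let α : Equiv.Perm J := Equiv.Perm.ofSubtype (σ.subtypePerm (p := fun x => x ∈ P)
    (fun x => (h1 x).symm))
  have hα1 : ∀ x ∈ P, α x = σ x := by
    intro x hx
    exact Equiv.Perm.ofSubtype_apply_of_mem _ hx
  have hα2 : ∀ x, x ∉ P → α x = x := by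
    intro x hx
    exact Equiv.Perm.ofSubtype_apply_of_not_mem _ hx
  refine ⟨α, mem_GW.2 hα2, α⁻¹ * σ, ?_, (mul_inv_cancel_left α σ).symm⟩
  rw [mem_GW]
  intro x hx
  rw [Equiv.Perm.mul_apply, Equiv.Perm.inv_eq_iff_eq]
  by_cases hxP : x ∈ P
  · exact (hα1 x hxP).symm
  · have hxO : x ∉ O := fun h => hx (mem_sdiff.2 ⟨h, hxP⟩)
    rw [hσ x hxO, hα2 x hxP]

/-- **inequality (3.1)**: doubling of the number of symmetric positions -/
theorem SymG (p : Seminorm ℝ X) (ρ : Equiv.Perm J →* Module.End ℝ X)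
    (hρ : ∀ σ x, p (ρ σ x) = p x) (m : ℕ) (e : ℕ → J)
    (he : ∀ i j, i < 3 * m → j < 3 * m → e i = e j → i = j) (v : X)
    (hv : ∀ σ ∈ GW ((range m).image e), ρ σ v = v) :
    p v ≤ 16 ^ m * p (AV ρ ((range (2 * m)).image e) v) + (1 + 16 ^ m) * (4 * m *
      ∑ j ∈ Ico m (3 * m - 1), p (ρ (Equiv.swap (e j) (e (j + 1))) v - v)) := by
  classical
  set P := (range m).image e with hPd
  set W := (range (2 * m)).image e with hWd
  set O := (range (3 * m)).image e with hOd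
  set R := (Ico m (3 * m)).image e with hRd
  have hinj : Set.InjOn e (range (3 * m) : Set ℕ) := by
    intro i hi j hj h
    rw [mem_coe, mem_range] at hi hj
    exact he i j hi hj h
  have hOc : O.card = 3 * m := by rw [hOd, card_image_of_injOn hinj, card_range]
  have hWc : W.card = 2 * m := by
    rw [hWd, card_image_of_injOn (hinj.mono ?_), card_range]
    intro i hi
    rw [mem_coe, mem_range] at *
    omega
  have hPc : P.card = m := by
    rw [hPd, card_image_of_injOn (hinj.mono ?_), card_range]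
    intro i hi
    rw [mem_coe, mem_range] at *
    omega
  have hPW : P ⊆ W := image_subset_image fun i hi => by
    rw [mem_range] at *
    omega
  have hWO : W ⊆ O := image_subset_image fun i hi => by
    rw [mem_range] at *
    omega
  have hOP : O \ P ⊆ R := by
    intro x hx
    rw [mem_sdiff] at hx
    obtain ⟨i, hi, rfl⟩ := mem_image.1 hx.1
    rw [mem_range] at hi
    refine mem_image_of_mem _ (mem_Ico.2 ⟨?_, hi⟩)
    by_contra hc
    exact hx.2 (mem_image_of_mem _ (mem_range.2 (by omega)))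
  have hPR : ∀ x ∈ R, x ∉ P := by
    intro x hx hx'
    obtain ⟨i, hi, rfl⟩ := mem_image.1 hx
    obtain ⟨j, hj, hj2⟩ := mem_image.1 hx'
    rw [mem_Ico] at hi
    rw [mem_range] at hj
    have := he j i (by omega) hi.2 hj2
    omega
  set D := ∑ j ∈ Ico m (3 * m - 1), p (ρ (Equiv.swap (e j) (e (j + 1))) v - v) with hD
  have hD0 : 0 ≤ D := sum_nonneg fun _ _ => apply_nonneg p _
  set v' := AV ρ R v with hv'
  have h1 : p (v' - v) ≤ 4 * m * D := by
    refine AV_sub p ρ fun σ hσ => ?_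
    rw [mem_GW] at hσ
    have h2 := SymF_perm p ρ hρ v e m (2 * m) (fun i j _ h2 _ h4 => he i j (by omega) (by omega))
      σ (by rwa [show m + 2 * m = 3 * m by ring])
    rw [show m + 2 * m - 1 = 3 * m - 1 by omega, ← hD] at h2
    push_cast at h2
    linarith
  have h2 : ∀ σ : Equiv.Perm J, (∀ x, x ∉ O → σ x = x) → P.map σ.toEmbedding = P →
      ρ σ v' = v' := by
    intro σ hσ hσP
    obtain ⟨α, hα, β, hβ, hαβ⟩ := GW_split (hPW.trans hWO) (mem_GW.2 hσ) hσP
    have h3 : ρ σ v' = ρ α (ρ β v') := by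
      rw [hαβ, map_mul]
      rfl
    rw [h3, hv', AV_left ρ (GW_mono hOP hβ), AV_comm ρ (fun x hx => mem_GW.1 hα x (hPR x hx)),
      hv α hα]
  have h3 := SymE p ρ hρ m O W P hOc hWc hPc hPW hWO v' h2 (AV ρ W)
    (fun σ hσ x => AV_right ρ (mem_GW.2 hσ) x) (fun x hx => AV_fix ρ fun σ hσ => hx σ (mem_GW.1 hσ))
  have h4 : p (AV ρ W v') ≤ p (AV ρ W v) + p (v' - v) := by
    have h5 : AV ρ W v' = AV ρ W v + AV ρ W (v' - v) := by
      rw [map_sub]
      abel
    rw [h5]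
    exact (map_add_le_add p _ _).trans (add_le_add_right (AV_contr p ρ hρ W _) _)
  have h5 : p v ≤ p v' + p (v' - v) := by
    have h6 : v = v' - (v' - v) := by abel
    calc p v = p (v' - (v' - v)) := by rw [← h6]
      _ ≤ p v' + p (v' - v) := map_sub_le_add p _ _
  have h6 : (0:ℝ) < 16 ^ m := by positivity
  calc p v ≤ p v' + p (v' - v) := h5
    _ ≤ 16 ^ m * (p (AV ρ W v) + p (v' - v)) + p (v' - v) := by
        have := mul_le_mul_of_nonneg_left h4 h6.le
        linarith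
    _ = 16 ^ m * p (AV ρ W v) + (1 + 16 ^ m) * p (v' - v) := by ring
    _ ≤ 16 ^ m * p (AV ρ W v) + (1 + 16 ^ m) * (4 * m * D) := by gcongr

end rep

end Pool.Agent.H49.KC
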